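import Pool.Agent.helper75.LC.Spec

/-!
Row lc:MNB.
-/

set_option autoImplicit false

namespace Pool.Agent.LC

open MX MG

theorem MNB_one {H V : Type} [Group H] [AddCommGroup V] [DistribMulAction H V] (d : H → V)
    (hd : ∀ g h : H, d (g * h) = d g + g • d h) : d 1 = 0 := by
  have h := hd 1 1
  rw [mul_one, one_smul] at h
  have h2 : d 1 + 0 = d 1 + d 1 := by rw [add_zero]; exact h
  exact (add_left_cancel h2).symm

theorem MNB_conj {H V : Type} [Group H] [AddCommGroup V] [DistribMulAction H V] (d : H → V)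
    (hd : ∀ g h : H, d (g * h) = d g + g • d h) (h k : H) (hk : ∀ v : V, k • v = v) :
    d (h * k * h⁻¹) = h • d k := by
  have h1 : d (h * h⁻¹) = d h + h • d h⁻¹ := hd h h⁻¹
  rw [mul_inv_cancel, MNB_one d hd] at h1
  rw [mul_assoc, hd, hd, hk, smul_add]
  calc d h + (h • d k + h • d h⁻¹) = h • d k + (d h + h • d h⁻¹) := by abel
    _ = h • d k := by rw [← h1, add_zero]

theorem MNB : MNB_stmt := by
  intro H V _ _ _ p hp hirr K hK hact d hd0 hne
  have hd : ∀ g h : H, d (g * h) = d g + g • d h := hd0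
  have hone : d 1 = 0 := MNB_one d hd
  have hmul : ∀ k ∈ K, ∀ k' : H, d (k * k') = d k + d k' := by
    intro k hk k'
    rw [hd, hact k hk]
  have hinv : ∀ k ∈ K, d k⁻¹ = - d k := by
    intro k hk
    have h1 := hmul k hk k⁻¹
    rw [mul_inv_cancel, hone] at h1
    exact (neg_eq_of_add_eq_zero_right h1.symm).symm
  have hconj : ∀ (h k : H), k ∈ K → d (h * k * h⁻¹) = h • d k :=
    fun h k hk => MNB_conj d hd h k (hact k hk)
  obtain ⟨hKn, hKb, hKm⟩ := hK
  have hinj : ∀ k ∈ K, d k = 0 → k = 1 := by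
    let L : Subgroup H :=
      { carrier := {k | k ∈ K ∧ d k = 0}
        mul_mem' := by
          rintro a b ⟨ha, ha'⟩ ⟨hb, hb'⟩
          exact ⟨K.mul_mem ha hb, by rw [hmul a ha, ha', hb', add_zero]⟩
        one_mem' := ⟨K.one_mem, hone⟩
        inv_mem' := by
          rintro a ⟨ha, ha'⟩
          exact ⟨K.inv_mem ha, by rw [hinv a ha, ha', neg_zero]⟩ }
    have hLn : L.Normal := by
      refine ⟨?_⟩
      rintro n ⟨hn, hn'⟩ g
      exact ⟨hKn.conj_mem n hn g, by rw [hconj g n hn, hn', smul_zero]⟩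
    have hLK : L ≤ K := fun x hx => hx.1
    rcases hKm L hLn hLK with h | h
    · intro k hk hk0
      have : k ∈ L := ⟨hk, hk0⟩
      rw [h] at this
      exact Subgroup.mem_bot.mp this
    · exfalso
      obtain ⟨k, hk, hk0⟩ := hne
      have : k ∈ L := by rw [h]; exact hk
      exact hk0 this.2
  refine ⟨?_, hinj, ?_⟩
  · let U : AddSubgroup V :=
      { carrier := {v | ∃ k ∈ K, d k = v}
        add_mem' := by
          rintro a b ⟨k, hk, rfl⟩ ⟨k', hk', rfl⟩
          exact ⟨k * k', K.mul_mem hk hk', hmul k hk k'⟩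
        zero_mem' := ⟨1, K.one_mem, hone⟩
        neg_mem' := by
          rintro a ⟨k, hk, rfl⟩
          exact ⟨k⁻¹, K.inv_mem hk, hinv k hk⟩ }
    have hU : ∀ h : H, ∀ v ∈ U, h • v ∈ U := by
      rintro h v ⟨k, hk, rfl⟩
      exact ⟨h * k * h⁻¹, hKn.conj_mem k hk h, hconj h k hk⟩
    rcases hirr.2 U hU with h | h
    · exfalso
      obtain ⟨k, hk, hk0⟩ := hne
      have : d k ∈ U := ⟨k, hk, rfl⟩
      rw [h] at this
      exact hk0 (AddSubgroup.mem_bot.mp this)
    · intro v
      have : v ∈ U := by rw [h]; exact AddSubgroup.mem_top v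
      exact this
  · intro k hk
    have hpow : ∀ n : ℕ, d (k ^ n) = n • d k := by
      intro n
      induction n with
      | zero => rw [pow_zero, zero_smul, hone]
      | succ n ih => rw [pow_succ', hmul k hk, ih, add_comm, succ_nsmul]
    apply hinj _ (K.pow_mem hk p)
    rw [hpow, hp]

end Pool.Agent.LC
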